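import Pool.Agent.H37Z.FInvDual

set_option autoImplicit false

namespace Pool.Agent.Results.MP_46d37e_an.Addition

open MeasureTheory FInv

universe u v w

/-- Addition formula for Bowen's f-invariant of algebraic actions of free groups: for an exact
sequence `0 → A → B → C → 0` of `ℤ(𝔽_r)`-modules whose dual actions have finite generating
partitions `α, β, γ`, the limits `f = lim F(·^n)` exist in `[-∞, ∞)` and
`f(B^) = f(A^) + f(C^)`. -/
theorem result (r : ℕ)
    (A : Type u) [AddCommGroup A] [TopologicalSpace A] [DiscreteTopology A] [Module (ZF r) A]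
    (B : Type v) [AddCommGroup B] [TopologicalSpace B] [DiscreteTopology B] [Module (ZF r) B]
    (C : Type w) [AddCommGroup C] [TopologicalSpace C] [DiscreteTopology C] [Module (ZF r) C]
    (i : A →ₗ[ZF r] B) (p : B →ₗ[ZF r] C) (hi : Function.Injective i)
    (hex : Function.Exact i p) (hp : Function.Surjective p)
    (lA : Measure (Dual A)) [lA.IsHaarMeasure] [IsProbabilityMeasure lA]
    (lB : Measure (Dual B)) [lB.IsHaarMeasure] [IsProbabilityMeasure lB]
    (lC : Measure (Dual C)) [lC.IsHaarMeasure] [IsProbabilityMeasure lC]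
    (α : Setoid (Dual A)) (hα : IsFinGenerating r lA α)
    (β : Setoid (Dual B)) (hβ : IsFinGenerating r lB β)
    (γ : Setoid (Dual C)) (hγ : IsFinGenerating r lC γ) :
    ∃ fA fB fC : EReal, HasFInv r lA α fA ∧ HasFInv r lB β fB ∧ HasFInv r lC γ fC ∧
      fA < ⊤ ∧ fB < ⊤ ∧ fC < ⊤ ∧ fB = fA + fC :=
  FInv.main i p hi hex hp lA lB lC α hα β hβ γ hγ

end Pool.Agent.Results.MP_46d37e_an.Addition
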